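import Mathlib

/-! # A Toeplitz sequence built from the Thue-Morse word: combinatorics -/

set_option autoImplicit false

namespace Pool.Agent.T6.H46.Toe

/-- parity of the sum of the binary digits -/
def tm (n : ℕ) : Bool :=
  if h : n = 0 then false else xor (n % 2 == 1) (tm (n / 2))
decreasing_by exact Nat.div_lt_self (Nat.pos_of_ne_zero h) (by norm_num)

theorem tm_zero : tm 0 = false := by
  rw [tm]; simp

theorem tm_two_mul (n : ℕ) : tm (2 * n) = tm n := by
  by_cases h : n = 0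
  · subst h; rfl
  · rw [tm]
    have h1 : 2 * n ≠ 0 := by omega
    have h2 : 2 * n / 2 = n := by omega
    have h3 : (2 * n) % 2 = 0 := by omega
    simp [h1, h2, h3]

theorem tm_two_mul_add_one (n : ℕ) : tm (2 * n + 1) = !tm n := by
  rw [tm]
  have h1 : 2 * n + 1 ≠ 0 := by omega
  have h2 : (2 * n + 1) / 2 = n := by omega
  have h3 : (2 * n + 1) % 2 = 1 := by omega
  simp [h2, h3]

theorem tm_pow (N : ℕ) : ∀ j s : ℕ, s < 2 ^ N → tm (2 ^ N * j + s) = xor (tm j) (tm s) := by
  induction N with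
  | zero =>
    intro j s hs
    have : s = 0 := by simpa using hs
    subst this
    simp [tm_zero]
  | succ N ih =>
    intro j s hs
    have hs' : s / 2 < 2 ^ N := by
      rw [pow_succ] at hs
      omega
    have key := ih j (s / 2) hs'
    rcases Nat.even_or_odd' s with ⟨t, rfl | rfl⟩
    · have e1 : 2 ^ (N + 1) * j + 2 * t = 2 * (2 ^ N * j + t) := by ring
      have e2 : 2 * t / 2 = t := by omega
      rw [e2] at key
      rw [e1, tm_two_mul, tm_two_mul, key]
    · have e1 : 2 ^ (N + 1) * j + (2 * t + 1) = 2 * (2 ^ N * j + t) + 1 := by ring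
      have e2 : (2 * t + 1) / 2 = t := by omega
      rw [e2] at key
      rw [e1, tm_two_mul_add_one, tm_two_mul_add_one, key]
      cases tm j <;> cases tm t <;> rfl

theorem tm8 (c : ℕ) : tm (8 * c) = tm c ∧ tm (8 * c + 1) = !tm c ∧ tm (8 * c + 2) = !tm c ∧
    tm (8 * c + 4) = !tm c ∧ tm (8 * c + 5) = tm c ∧ tm (8 * c + 6) = tm c := by
  have h1 : tm 1 = true := by rw [show (1 : ℕ) = 2 * 0 + 1 by rfl, tm_two_mul_add_one, tm_zero]; rfl
  have h2 : tm 2 = true := by rw [show (2 : ℕ) = 2 * 1 by rfl, tm_two_mul, h1]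
  have h4 : tm 4 = true := by rw [show (4 : ℕ) = 2 * 2 by rfl, tm_two_mul, h2]
  have h5 : tm 5 = false := by rw [show (5 : ℕ) = 2 * 2 + 1 by rfl, tm_two_mul_add_one, h2]; rfl
  have h3 : tm 3 = false := by rw [show (3 : ℕ) = 2 * 1 + 1 by rfl, tm_two_mul_add_one, h1]; rfl
  have h6 : tm 6 = false := by rw [show (6 : ℕ) = 2 * 3 by rfl, tm_two_mul, h3]
  have k := tm_pow 3 c
  norm_num at k
  refine ⟨?_, ?_, ?_, ?_, ?_, ?_⟩
  · have := k 0 (by norm_num); simpa [tm_zero] using this
  · rw [k 1 (by norm_num), h1]; cases tm c <;> rfl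
  · rw [k 2 (by norm_num), h2]; cases tm c <;> rfl
  · rw [k 4 (by norm_num), h4]; cases tm c <;> rfl
  · rw [k 5 (by norm_num), h5]; cases tm c <;> rfl
  · rw [k 6 (by norm_num), h6]; cases tm c <;> rfl

/-- the Thue-Morse word changes under every shift, at every scale -/
theorem tm_shift {N n : ℕ} (h1 : 2 ^ N ≤ n) (h2 : n < 2 ^ (N + 1)) (c s : ℕ) (hs : s < 2 ^ N) :
    ∃ j < 3, tm (2 ^ N * (8 * c + j) + s) ≠ tm (2 ^ N * (8 * c + j) + s + n) := by
  obtain ⟨t0, t1, t2, t4, -, -⟩ := tm8 c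
  rw [pow_succ] at h2
  by_cases hm : s + (n - 2 ^ N) < 2 ^ N
  · have e : ∀ j, 2 ^ N * (8 * c + j) + s + n = 2 ^ N * (8 * c + (j + 1)) + (s + (n - 2 ^ N)) := by
      intro j
      have : n = 2 ^ N + (n - 2 ^ N) := by omega
      nlinarith
    by_cases he : tm s = tm (s + (n - 2 ^ N))
    · refine ⟨0, by norm_num, ?_⟩
      rw [e, tm_pow N _ _ hs, tm_pow N _ _ hm, he]
      simp only [add_zero, zero_add]
      rw [t0, t1]
      cases tm c <;> cases tm (s + (n - 2 ^ N)) <;> simp
    · refine ⟨1, by norm_num, ?_⟩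
      rw [e, tm_pow N _ _ hs, tm_pow N _ _ hm]
      simp only [show 1 + 1 = 2 by rfl]
      rw [t1, t2]
      revert he
      cases tm c <;> cases tm (s + (n - 2 ^ N)) <;> cases tm s <;> simp
  · have hm' : s + (n - 2 ^ N) - 2 ^ N < 2 ^ N := by omega
    have e : ∀ j, 2 ^ N * (8 * c + j) + s + n =
        2 ^ N * (8 * c + (j + 2)) + (s + (n - 2 ^ N) - 2 ^ N) := by
      intro j
      have : s + n = 2 ^ N + 2 ^ N + (s + (n - 2 ^ N) - 2 ^ N) := by omega
      nlinarith
    by_cases he : tm s = tm (s + (n - 2 ^ N) - 2 ^ N)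
    · refine ⟨0, by norm_num, ?_⟩
      rw [e, tm_pow N _ _ hs, tm_pow N _ _ hm', he]
      simp only [add_zero, zero_add]
      rw [t0, t2]
      cases tm c <;> cases tm (s + (n - 2 ^ N) - 2 ^ N) <;> simp
    · refine ⟨2, by norm_num, ?_⟩
      rw [e, tm_pow N _ _ hs, tm_pow N _ _ hm']
      simp only [show 2 + 2 = 4 by rfl]
      rw [t2, t4]
      revert he
      cases tm c <;> cases tm (s + (n - 2 ^ N) - 2 ^ N) <;> cases tm s <;> simp

/-- the number of blocks of level `k` in a block of level `k + 1` -/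
def Q (k : ℕ) : ℤ := 2 ^ (k + 7)

theorem Q_pos (k : ℕ) : 0 < Q k := by unfold Q; positivity

/-- the type of the `j`-th block of level `k` -/
def yy (k : ℕ) (j : ℤ) : Bool :=
  if h : j % Q k = 0 ∨ j % Q k = Q k - 1 then false
  else xor (tm (j % Q k).toNat) (yy (k + 1) (j / Q k))
termination_by j.natAbs
decreasing_by
  have hQ : 2 ≤ Q k := by
    unfold Q
    calc (2 : ℤ) = 2 ^ 1 := by norm_num
      _ ≤ 2 ^ (k + 7) := pow_le_pow_right₀ (by norm_num) (by omega)
  push Not at h
  obtain ⟨h0, h1⟩ := h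
  have hj0 : j ≠ 0 := by rintro rfl; simp at h0
  have hj1 : j ≠ -1 := by
    rintro rfl
    apply h1
    rw [Int.emod_def]
    have : (-1 : ℤ) / Q k = -1 := by
      rw [Int.ediv_eq_iff_of_pos (by omega)]
      omega
    rw [this]; ring
  rcases lt_or_gt_of_ne hj0 with h | h
  · have hlt : j / Q k < 0 := Int.ediv_neg_of_neg_of_pos h (by omega)
    have hge : j + 1 ≤ j / Q k := by
      rw [Int.le_ediv_iff_mul_le (by omega)]
      have h3 : j ≤ -2 := by omega
      nlinarith [mul_le_mul_of_nonpos_left hQ (show j + 1 ≤ 0 by omega)]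
    omega
  · have hge : 0 ≤ j / Q k := Int.ediv_nonneg h.le (by omega)
    have hlt : j / Q k < j := by
      rw [Int.ediv_lt_iff_lt_mul (by omega)]
      nlinarith
    omega

theorem yy_def (k : ℕ) (j : ℤ) : yy k j = if j % Q k = 0 ∨ j % Q k = Q k - 1 then false
    else xor (tm (j % Q k).toNat) (yy (k + 1) (j / Q k)) := by
  rw [yy]
  split_ifs <;> rfl

theorem yy_rec (k : ℕ) (J : ℤ) (d : ℤ) (h0 : 0 ≤ d) (h1 : d < Q k) :
    yy k (Q k * J + d) = if d = 0 ∨ d = Q k - 1 then false else xor (tm d.toNat) (yy (k + 1) J) := by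
  have e1 : (Q k * J + d) % Q k = d := by
    rw [add_comm, Int.add_mul_emod_self_left, Int.emod_eq_of_lt h0 h1]
  have e2 : (Q k * J + d) / Q k = J := by
    rw [add_comm, Int.add_mul_ediv_left _ _ (Q_pos k).ne', Int.ediv_eq_zero_of_lt h0 h1, zero_add]
  rw [yy_def, e1, e2]

/-- the length of the blocks of level `k` -/
def P : ℕ → ℕ
  | 0 => 1
  | k + 1 => P k * 2 ^ (k + 7)

theorem P_pos (k : ℕ) : 0 < P k := by
  induction k with
  | zero => exact Nat.one_pos
  | succ k ih => unfold P; positivity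

theorem P_two_pow (k : ℕ) : ∃ N, P k = 2 ^ N ∧ k ≤ N := by
  induction k with
  | zero => exact ⟨0, rfl, le_rfl⟩
  | succ k ih =>
    obtain ⟨N, hN, hk⟩ := ih
    refine ⟨N + (k + 7), ?_, by omega⟩
    change P k * 2 ^ (k + 7) = _
    rw [hN, ← pow_add]

theorem P_succ_cast (k : ℕ) : (P (k + 1) : ℤ) = P k * Q k := by
  have : P (k + 1) = P k * 2 ^ (k + 7) := rfl
  rw [this]; unfold Q; push_cast; ring

/-- the sequence -/
def xx : ℤ → Bool := yy 0

/-- the blocks of the same type agree -/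
theorem xx_block (k : ℕ) : ∀ (J J' : ℤ), yy k J = yy k J' → ∀ r : ℤ, 0 ≤ r → r < P k →
    xx (P k * J + r) = xx (P k * J' + r) := by
  induction k with
  | zero =>
    intro J J' h r h0 h1
    have : r = 0 := by
      have : (P 0 : ℤ) = 1 := rfl
      omega
    subst this
    simpa [P, xx] using h
  | succ k ih =>
    intro J J' h r h0 h1
    have hP : (0 : ℤ) < P k := by exact_mod_cast P_pos k
    have hPs := P_succ_cast k
    have e : ∀ J : ℤ, (P (k + 1) : ℤ) * J + r = P k * (Q k * J + r / P k) + r % P k := by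
      intro J
      have := Int.mul_ediv_add_emod r (P k)
      rw [hPs]
      linear_combination -this
    rw [e, e]
    refine ih _ _ ?_ _ (Int.emod_nonneg _ hP.ne') (Int.emod_lt_of_pos _ hP)
    have hd0 : 0 ≤ r / (P k : ℤ) := Int.ediv_nonneg h0 hP.le
    have hd1 : r / (P k : ℤ) < Q k := by
      rw [Int.ediv_lt_iff_lt_mul hP, mul_comm]
      rw [hPs] at h1
      exact h1
    rw [yy_rec k J _ hd0 hd1, yy_rec k J' _ hd0 hd1, h]

/-- the types of eight consecutive blocks -/
theorem yy_eight (k : ℕ) (b : ℤ) : yy k (8 * b + 1) = yy k (8 * b + 2) ∧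
    yy k (8 * b + 5) = yy k (8 * b + 6) ∧ yy k (8 * b + 1) ≠ yy k (8 * b + 5) := by
  have hQ : Q k = 8 * 2 ^ (k + 4) := by unfold Q; rw [show k + 7 = (k + 4) + 3 by ring, pow_add]; ring
  have h16 : (16 : ℤ) ≤ 2 ^ (k + 4) := by
    calc (16 : ℤ) = 2 ^ 4 := by norm_num
      _ ≤ 2 ^ (k + 4) := pow_le_pow_right₀ (by norm_num) (by omega)
  set R : ℤ := 2 ^ (k + 4) with hR
  have hR0 : 0 < R := by omega
  obtain ⟨b', c, hb, hc0, hc1⟩ : ∃ b' c : ℤ, b = R * b' + c ∧ 0 ≤ c ∧ c < R :=
    ⟨b / R, b % R, (Int.mul_ediv_add_emod b R).symm, Int.emod_nonneg _ hR0.ne', Int.emod_lt_of_pos _ hR0⟩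
  obtain ⟨m, rfl⟩ := Int.eq_ofNat_of_zero_le hc0
  obtain ⟨-, t1, t2, -, t5, t6⟩ := tm8 m
  have key : ∀ e : ℕ, 1 ≤ e → e ≤ 6 → yy k (8 * b + e) = xor (tm (8 * m + e)) (yy (k + 1) b') := by
    intro e he1 he2
    have e1 : 8 * b + (e : ℤ) = Q k * b' + (8 * m + e : ℕ) := by
      rw [hb, hQ]; push_cast; ring
    rw [e1, yy_rec k b' _ (by positivity) (by rw [hQ]; push_cast; omega), if_neg]
    · rw [Int.toNat_natCast]
    · push_cast
      rw [hQ]
      omega
  have k1 := key 1 (by norm_num) (by norm_num)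
  have k2 := key 2 (by norm_num) (by norm_num)
  have k5 := key 5 (by norm_num) (by norm_num)
  have k6 := key 6 (by norm_num) (by norm_num)
  push_cast at k1 k2 k5 k6
  rw [k1, k2, k5, k6, t1, t2, t5, t6]
  cases tm m <;> cases yy (k + 1) b' <;> simp

theorem xx_toeplitz (n : ℤ) : ∃ p : ℕ, 0 < p ∧ ∀ m : ℤ, xx (n + m * p) = xx n := by
  suffices h : ∀ (N : ℕ) (k : ℕ) (j : ℤ), j.natAbs ≤ N → ∃ p : ℕ, 0 < p ∧
      ∀ m : ℤ, yy k (j + m * p) = yy k j by
    exact h n.natAbs 0 n le_rfl
  intro N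
  induction N with
  | zero =>
    intro k j hj
    have hj0 : j = 0 := by omega
    subst hj0
    refine ⟨2 ^ (k + 7), by positivity, fun m => ?_⟩
    have h1 := yy_rec k m 0 le_rfl (Q_pos k)
    have h2 := yy_rec k 0 0 le_rfl (Q_pos k)
    simp only [true_or, if_true] at h1 h2
    have e1 : (0 : ℤ) + m * ((2 ^ (k + 7) : ℕ) : ℤ) = Q k * m + 0 := by unfold Q; push_cast; ring
    have e2 : (0 : ℤ) = Q k * 0 + 0 := by ring
    rw [e1, h1]
    conv_rhs => rw [e2, h2]
  | succ N ih =>
    intro k j hj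
    have hQp := Q_pos k
    set d := j % Q k with hd
    have hd0 : 0 ≤ d := Int.emod_nonneg _ hQp.ne'
    have hd1 : d < Q k := Int.emod_lt_of_pos _ hQp
    have hj' : j = Q k * (j / Q k) + d := (Int.mul_ediv_add_emod j (Q k)).symm
    by_cases hf : d = 0 ∨ d = Q k - 1
    · refine ⟨2 ^ (k + 7), by positivity, fun m => ?_⟩
      have e1 : j + m * ((2 ^ (k + 7) : ℕ) : ℤ) = Q k * (j / Q k + m) + d := by
        conv_lhs => rw [hj']
        unfold Q; push_cast; ring
      rw [e1, yy_rec k _ d hd0 hd1, if_pos hf]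
      conv_rhs => rw [hj', yy_rec k _ d hd0 hd1, if_pos hf]
    · have hQ : 2 ≤ Q k := by
        unfold Q
        calc (2 : ℤ) = 2 ^ 1 := by norm_num
          _ ≤ 2 ^ (k + 7) := pow_le_pow_right₀ (by norm_num) (by omega)
      have hlt : (j / Q k).natAbs ≤ N := by
        push Not at hf
        obtain ⟨h0, h1⟩ := hf
        have hj0 : j ≠ 0 := by
          intro h
          apply h0
          rw [hd, h]
          simp
        have hj1 : j ≠ -1 := by
          intro h
          apply h1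
          rw [hd, h, Int.emod_def]
          have : (-1 : ℤ) / Q k = -1 := by
            rw [Int.ediv_eq_iff_of_pos (by omega)]
            omega
          rw [this]; ring
        rcases lt_or_gt_of_ne hj0 with h | h
        · have hlt : j / Q k < 0 := Int.ediv_neg_of_neg_of_pos h (by omega)
          have hge : j + 1 ≤ j / Q k := by
            rw [Int.le_ediv_iff_mul_le (by omega)]
            have h3 : j ≤ -2 := by omega
            nlinarith [mul_le_mul_of_nonpos_left hQ (show j + 1 ≤ 0 by omega)]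
          omega
        · have hge : 0 ≤ j / Q k := Int.ediv_nonneg h.le (by omega)
          have hlt : j / Q k < j := by
            rw [Int.ediv_lt_iff_lt_mul (by omega)]
            nlinarith
          omega
      obtain ⟨p, hp, hpp⟩ := ih (k + 1) (j / Q k) hlt
      refine ⟨2 ^ (k + 7) * p, by positivity, fun m => ?_⟩
      have e1 : j + m * ((2 ^ (k + 7) * p : ℕ) : ℤ) = Q k * (j / Q k + m * p) + d := by
        conv_lhs => rw [hj']
        unfold Q; push_cast; ring
      rw [e1, yy_rec k _ d hd0 hd1, if_neg hf, hpp]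
      conv_rhs => rw [hj', yy_rec k _ d hd0 hd1, if_neg hf]

/-- the exceptional places in the blocks of level `k` -/
def bad : ℕ → ℕ → Prop
  | 0, _ => False
  | k + 1, r => r / P k = 0 ∨ r / P k = 2 ^ (k + 7) - 1 ∨ bad k (r % P k)

theorem xx_good (k : ℕ) : ∀ (J : ℤ) (r : ℕ), r < P k → ¬ bad k r →
    xx (P k * J + r) = xor (tm r) (yy k J) := by
  induction k with
  | zero =>
    intro J r h1 _
    have : r = 0 := by
      have : P 0 = 1 := rfl
      omega
    subst this
    simp [P, xx, tm_zero]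
  | succ k ih =>
    intro J r h1 hb
    have hP := P_pos k
    unfold bad at hb
    push Not at hb
    obtain ⟨hb0, hb1, hb2⟩ := hb
    have hPs : P (k + 1) = P k * 2 ^ (k + 7) := rfl
    have hd1 : r / P k < 2 ^ (k + 7) := by
      rw [Nat.div_lt_iff_lt_mul hP, mul_comm]
      exact h1
    have e : (P (k + 1) : ℤ) * J + r = P k * (Q k * J + (r / P k : ℕ)) + (r % P k : ℕ) := by
      have h2 := Nat.div_add_mod r (P k)
      have h3 : (r : ℤ) = P k * (r / P k : ℕ) + (r % P k : ℕ) := by exact_mod_cast h2.symm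
      have h4 := P_succ_cast k
      rw [h4]
      linear_combination h3
    rw [e, ih _ _ (Nat.mod_lt _ hP) hb2, yy_rec k J _ (by positivity) (by unfold Q; exact_mod_cast hd1),
      if_neg]
    · rw [Int.toNat_natCast]
      obtain ⟨N, hN, -⟩ := P_two_pow k
      have h2 := tm_pow N (r / P k) (r % P k) (by rw [← hN]; exact Nat.mod_lt _ hP)
      rw [← hN, Nat.div_add_mod] at h2
      rw [h2]
      cases tm (r / P k) <;> cases tm (r % P k) <;> cases yy (k + 1) J <;> rfl
    · unfold Q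
      push Not
      refine ⟨by exact_mod_cast hb0, fun h => hb1 ?_⟩
      have : ((r / P k : ℕ) : ℤ) + 1 = 2 ^ (k + 7) := by rw [h]; ring
      have h5 : r / P k + 1 = 2 ^ (k + 7) := by exact_mod_cast this
      rw [← h5, Nat.add_sub_cancel]

end Pool.Agent.T6.H46.Toe
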