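import Mathlib
import Pool.Agent.T6.H46.Toe.Seq

/-! # A Toeplitz sequence built from the Thue-Morse word: counting -/

set_option autoImplicit false

open Finset

namespace Pool.Agent.T6.H46.Toe

open Classical in
/-- the number of exceptional places -/
noncomputable def bc (k : ℕ) : ℕ := ((range (P k)).filter (fun r => bad k r)).card

theorem bc_succ (k : ℕ) : bc (k + 1) ≤ 2 * P k + 2 ^ (k + 7) * bc k := by
  classical
  have hP := P_pos k
  set Qn : ℕ := 2 ^ (k + 7) with hQn
  have hsub : (range (P (k + 1))).filter (fun r => bad (k + 1) r) ⊆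
      (range (P k)) ∪ ((range (P k)).image (fun s => P k * (Qn - 1) + s) ∪
        ((range Qn) ×ˢ ((range (P k)).filter (fun r => bad k r))).image
          (fun p => P k * p.1 + p.2)) := by
    intro r hr
    rw [mem_filter, mem_range] at hr
    obtain ⟨h1, h2⟩ := hr
    have hPs : P (k + 1) = P k * Qn := rfl
    have hd := Nat.div_add_mod r (P k)
    have hm := Nat.mod_lt r hP
    have hlt : r / P k < Qn := by
      rw [Nat.div_lt_iff_lt_mul hP, mul_comm, ← hPs]
      exact h1
    unfold bad at h2
    rcases h2 with h | h | h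
    · rw [mem_union]
      left
      rw [mem_range]
      rw [h] at hd
      omega
    · rw [mem_union, mem_union]
      right; left
      rw [mem_image]
      refine ⟨r % P k, mem_range.2 hm, ?_⟩
      rw [← h]
      exact hd
    · rw [mem_union, mem_union]
      right; right
      rw [mem_image]
      refine ⟨(r / P k, r % P k), ?_, hd⟩
      rw [mem_product]
      exact ⟨mem_range.2 hlt, mem_filter.2 ⟨mem_range.2 hm, h⟩⟩
  unfold bc
  refine (card_le_card hsub).trans ?_
  refine (card_union_le _ _).trans ?_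
  have h2 := (card_union_le ((range (P k)).image (fun s => P k * (Qn - 1) + s))
    (((range Qn) ×ˢ ((range (P k)).filter (fun r => bad k r))).image
          (fun p => P k * p.1 + p.2)))
  have h3 := card_image_le (s := range (P k)) (f := fun s => P k * (Qn - 1) + s)
  have h4 := card_image_le (s := (range Qn) ×ˢ ((range (P k)).filter (fun r => bad k r)))
    (f := fun p => P k * p.1 + p.2)
  rw [card_product, card_range] at h4
  rw [card_range] at h3 ⊢
  omega

theorem bc_le (k : ℕ) : bc k * 2 ^ (k + 5) + P k ≤ P k * 2 ^ k := by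
  induction k with
  | zero =>
    have : bc 0 = 0 := by
      classical
      unfold bc
      rw [card_eq_zero, filter_eq_empty_iff]
      intro r _ h
      exact h
    rw [this]
    simp
  | succ k ih =>
    have h1 := bc_succ k
    have hPs : P (k + 1) = P k * 2 ^ (k + 7) := rfl
    have e7 : (2 : ℕ) ^ (k + 7) = 128 * 2 ^ k := by rw [pow_add]; ring
    have e5 : (2 : ℕ) ^ (k + 5) = 32 * 2 ^ k := by rw [pow_add]; ring
    have e6 : (2 : ℕ) ^ (k + 1 + 5) = 64 * 2 ^ k := by rw [show k + 1 + 5 = k + 6 by ring, pow_add]; ring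
    have e1 : (2 : ℕ) ^ (k + 1) = 2 * 2 ^ k := by rw [pow_add]; ring
    rw [hPs, e7, e6, e1]
    rw [e7] at h1
    rw [e5] at ih
    set T : ℕ := 2 ^ k with hT
    nlinarith [Nat.mul_le_mul_right (64 * T) h1, Nat.mul_le_mul_right (256 * T) ih]

theorem bc_le' (k : ℕ) : 32 * bc k ≤ P k := by
  have h := bc_le k
  have e5 : (2 : ℕ) ^ (k + 5) = 32 * 2 ^ k := by rw [pow_add]; ring
  rw [e5] at h
  have hT : 0 < 2 ^ k := by positivity
  have : (32 * bc k) * 2 ^ k ≤ P k * 2 ^ k := by nlinarith
  exact Nat.le_of_mul_le_mul_right this hT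

open Classical in
/-- places where the Thue-Morse word differs from its shift -/
theorem tm_count {n : ℕ} (hn : 0 < n) : ∃ k, P k ≤ 8 *
    ((range (P k)).filter (fun r => r + n < P k ∧ tm r ≠ tm (r + n))).card := by
  obtain ⟨N, hN1, hN2⟩ : ∃ N, 2 ^ N ≤ n ∧ n < 2 ^ (N + 1) :=
    ⟨Nat.log 2 n, Nat.pow_log_le_self 2 hn.ne', Nat.lt_pow_succ_log_self (by norm_num) n⟩
  obtain ⟨N', hP, hN'⟩ := P_two_pow (N + 3)
  refine ⟨N + 3, ?_⟩
  obtain ⟨u, hu⟩ : ∃ u, N' = N + 3 + u := ⟨N' - (N + 3), by omega⟩
  have hPe : P (N + 3) = 8 * (2 ^ u * 2 ^ N) := by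
    rw [hP, hu, pow_add, pow_add]; ring
  choose! j hj hjj using fun (p : ℕ × ℕ) (hp : p.2 < 2 ^ N) => tm_shift hN1 hN2 p.1 p.2 hp
  have key : ((range (2 ^ u)) ×ˢ (range (2 ^ N))).card ≤
      ((range (P (N + 3))).filter (fun r => r + n < P (N + 3) ∧ tm r ≠ tm (r + n))).card := by
    apply card_le_card_of_injOn (fun p => 2 ^ N * (8 * p.1 + j p) + p.2)
    · intro p hp
      rw [mem_coe, mem_product, mem_range, mem_range] at hp
      have h1 := hj p hp.2
      have h2 := hjj p hp.2
      have h3 : 2 ^ N * (8 * p.1 + j p) + p.2 + n < P (N + 3) := by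
        rw [hPe]
        have h4 : p.1 + 1 ≤ 2 ^ u := hp.1
        have h5 : 8 * ((p.1 + 1) * 2 ^ N) ≤ 8 * (2 ^ u * 2 ^ N) :=
          Nat.mul_le_mul_left _ (Nat.mul_le_mul_right _ h4)
        rw [pow_succ] at hN2
        have h6 : 2 ^ N * (8 * p.1 + j p) ≤ 2 ^ N * (8 * p.1 + 2) :=
          Nat.mul_le_mul_left _ (by omega)
        have hp2 := hp.2
        nlinarith
      rw [mem_coe, mem_filter, mem_range]
      exact ⟨by dsimp only; omega, h3, h2⟩
    · intro p hp q hq h
      rw [mem_coe, mem_product, mem_range, mem_range] at hp hq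
      simp only at h
      have hpos : 0 < 2 ^ N := by positivity
      have m1 : (2 ^ N * (8 * p.1 + j p) + p.2) % 2 ^ N = p.2 := by
        rw [Nat.mul_add_mod, Nat.mod_eq_of_lt hp.2]
      have m2 : (2 ^ N * (8 * q.1 + j q) + q.2) % 2 ^ N = q.2 := by
        rw [Nat.mul_add_mod, Nat.mod_eq_of_lt hq.2]
      have d1 : (2 ^ N * (8 * p.1 + j p) + p.2) / 2 ^ N = 8 * p.1 + j p := by
        rw [Nat.mul_add_div hpos, Nat.div_eq_of_lt hp.2, add_zero]
      have d2 : (2 ^ N * (8 * q.1 + j q) + q.2) / 2 ^ N = 8 * q.1 + j q := by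
        rw [Nat.mul_add_div hpos, Nat.div_eq_of_lt hq.2, add_zero]
      have h1 := hj p hp.2
      have h2 := hj q hq.2
      rw [h] at m1 d1
      rw [m1] at m2
      rw [d1] at d2
      exact Prod.ext (by omega) m2
  rw [card_product, card_range, card_range] at key
  rw [hPe]
  rw [hPe] at key
  exact Nat.mul_le_mul_left _ key

open Classical in
theorem xx_block_ne {n : ℕ} (hn : 0 < n) : ∃ k, ∀ J : ℤ, P k ≤ 16 *
    ((range (P k)).filter (fun r : ℕ => xx (P k * J + r) ≠ xx (P k * J + r + n))).card := by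
  obtain ⟨k, hk⟩ := tm_count hn
  refine ⟨k, fun J => ?_⟩
  set S := (range (P k)).filter (fun r => r + n < P k ∧ tm r ≠ tm (r + n)) with hS
  set B1 := (range (P k)).filter (fun r => bad k r) with hB1
  set B2 := S.filter (fun r => bad k (r + n)) with hB2
  have hB1c : 32 * B1.card ≤ P k := bc_le' k
  have hB2c : B2.card ≤ B1.card := by
    apply card_le_card_of_injOn (fun r => r + n)
    · intro r hr
      rw [mem_coe, hB2, mem_filter, hS, mem_filter, mem_range] at hr
      rw [mem_coe, hB1, mem_filter, mem_range]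
      exact ⟨hr.1.2.1, hr.2⟩
    · intro a _ b _ h
      simpa using h
  have hsub : S ⊆ B1 ∪ (B2 ∪
      (range (P k)).filter (fun r : ℕ => xx (P k * J + r) ≠ xx (P k * J + r + n))) := by
    intro r hr
    have hr' := hr
    rw [hS, mem_filter, mem_range] at hr
    obtain ⟨h1, h2, h3⟩ := hr
    by_cases hb1 : bad k r
    · rw [mem_union]; left
      rw [hB1, mem_filter, mem_range]
      exact ⟨h1, hb1⟩
    by_cases hb2 : bad k (r + n)
    · rw [mem_union, mem_union]; right; left
      rw [hB2, mem_filter]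
      exact ⟨hr', hb2⟩
    · rw [mem_union, mem_union]; right; right
      rw [mem_filter, mem_range]
      refine ⟨h1, ?_⟩
      have e1 := xx_good k J r h1 hb1
      have e2 := xx_good k J (r + n) h2 hb2
      push_cast at e2
      rw [← add_assoc] at e2
      rw [e1, e2]
      intro h
      apply h3
      revert h
      cases tm r <;> cases tm (r + n) <;> cases yy k J <;> simp
  have h4 := (card_le_card hsub).trans (card_union_le _ _)
  have h5 := card_union_le B2
    ((range (P k)).filter (fun r : ℕ => xx (P k * J + r) ≠ xx (P k * J + r + n)))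
  omega

open Classical in
/-- the sequence differs from its shift by `n` at many places of every window -/
theorem xx_ne {n : ℕ} (hn : 0 < n) : ∃ L : ℕ, 0 < L ∧ ∀ h : ℤ, L ≤ 32 *
    ((range L).filter (fun i : ℕ => xx (h + i) ≠ xx (h + i + n))).card := by
  obtain ⟨k, hk⟩ := xx_block_ne hn
  have hP := P_pos k
  refine ⟨2 * P k, by positivity, fun h => ?_⟩
  have hPz : (0 : ℤ) < P k := by exact_mod_cast hP
  obtain ⟨J, t, hJ, ht⟩ : ∃ (J : ℤ) (t : ℕ), P k * J = h + t ∧ t < P k := by
    refine ⟨-((-h) / P k), ((-h) % P k).toNat, ?_, ?_⟩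
    · rw [Int.toNat_of_nonneg (Int.emod_nonneg _ hPz.ne')]
      have := Int.mul_ediv_add_emod (-h) (P k)
      linear_combination -this
    · have := Int.emod_lt_of_pos (-h) hPz
      have h2 := Int.emod_nonneg (-h) hPz.ne'
      omega
  have key : ((range (P k)).filter (fun r : ℕ => xx (P k * J + r) ≠ xx (P k * J + r + n))).card ≤
      ((range (2 * P k)).filter (fun i : ℕ => xx (h + i) ≠ xx (h + i + n))).card := by
    apply card_le_card_of_injOn (fun r => r + t)
    · intro r hr
      rw [mem_coe, mem_filter, mem_range] at hr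
      rw [mem_coe, mem_filter, mem_range]
      refine ⟨by dsimp only; omega, ?_⟩
      have e : h + ((r + t : ℕ) : ℤ) = P k * J + r := by rw [hJ]; push_cast; ring
      rw [e]
      exact hr.2
    · intro a _ b _ hab
      simpa using hab
  have := hk J
  omega

/-- a condition on the coordinates in `[-m, m]` -/
def Loc (m : ℕ) (C : (ℤ → Bool) → Prop) : Prop :=
  ∀ z z' : ℤ → Bool, (∀ a : ℤ, -(m : ℤ) ≤ a → a ≤ m → z a = z' a) → (C z ↔ C z')

/-- the translate of the sequence -/
def tx (h : ℤ) : ℤ → Bool := fun a => xx (h + a)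

open Classical in
theorem aligned (k m M : ℕ) (b0 : ℤ) {C : (ℤ → Bool) → Prop} (hC : Loc m C) :
    ((range (8 * P k * M)).filter (fun i : ℕ => C (tx (8 * P k * b0 + i)))).card ≤
      8 * ((range (8 * P k * M)).filter (fun i : ℕ => C (tx (8 * P k * b0 + i)) ∧
        C (tx (8 * P k * b0 + i + P k)))).card + 16 * m * M := by
  have hP := P_pos k
  have hPz : (0 : ℤ) < P k := by exact_mod_cast hP
  set W := (range (8 * P k * M)).filter (fun i : ℕ => C (tx (8 * P k * b0 + i))) with hW
  set W' := (range (8 * P k * M)).filter (fun i : ℕ => C (tx (8 * P k * b0 + i)) ∧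
        C (tx (8 * P k * b0 + i + P k))) with hW'
  set W1 := W.filter (fun i => m ≤ i % P k ∧ i % P k + m < P k) with hW1
  set W2 := W.filter (fun i => ¬ (m ≤ i % P k ∧ i % P k + m < P k)) with hW2
  have hsplit : W.card = W1.card + W2.card := by
    rw [hW1, hW2, card_filter_add_card_filter_not]
  -- the boundary places
  have h2 : W2.card ≤ 16 * m * M := by
    have : W2.card ≤ ((range (8 * M)) ×ˢ ((range m) ∪ (Ico (P k - m) (P k)))).card := by
      apply card_le_card_of_injOn (fun i => (i / P k, i % P k))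
      · intro i hi
        rw [mem_coe, hW2, mem_filter, hW, mem_filter, mem_range] at hi
        obtain ⟨⟨h1, -⟩, h3⟩ := hi
        rw [mem_coe, mem_product, mem_range, mem_union, mem_range, mem_Ico]
        have hm := Nat.mod_lt i hP
        refine ⟨?_, ?_⟩
        · dsimp only
          rw [Nat.div_lt_iff_lt_mul hP]
          calc i < 8 * P k * M := h1
            _ = 8 * M * P k := by ring
        · dsimp only
          by_contra hcon
          push Not at hcon
          apply h3
          refine ⟨hcon.1, ?_⟩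
          by_contra h4
          have := hcon.2 (by omega)
          omega
      · intro a _ b _ hab
        simp only [Prod.mk.injEq] at hab
        have e1 := Nat.div_add_mod a (P k)
        have e2 := Nat.div_add_mod b (P k)
        rw [hab.1, hab.2] at e1
        omega
    refine this.trans ?_
    rw [card_product, card_range]
    have h5 := card_union_le (range m) (Ico (P k - m) (P k))
    rw [card_range, Nat.card_Ico] at h5
    have h6 : ((range m) ∪ (Ico (P k - m) (P k))).card ≤ 2 * m := by omega
    calc 8 * M * ((range m) ∪ (Ico (P k - m) (P k))).card ≤ 8 * M * (2 * m) :=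
          Nat.mul_le_mul_left _ h6
      _ = 16 * m * M := by ring
  -- the type of the group
  have hty : ∀ i : ℕ, ∃ e : ℕ, (e = 1 ∨ e = 5) ∧
      yy k (8 * (b0 + (i / (8 * P k) : ℕ)) + ((i / P k) % 8 : ℕ)) =
        yy k (8 * (b0 + (i / (8 * P k) : ℕ)) + e) := by
    intro i
    obtain ⟨-, -, h3⟩ := yy_eight k (b0 + (i / (8 * P k) : ℕ))
    by_cases h : yy k (8 * (b0 + (i / (8 * P k) : ℕ)) + ((i / P k) % 8 : ℕ)) =
        yy k (8 * (b0 + (i / (8 * P k) : ℕ)) + 1)
    · exact ⟨1, Or.inl rfl, by rw [h]; rfl⟩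
    · refine ⟨5, Or.inr rfl, ?_⟩
      push_cast at h h3 ⊢
      revert h h3
      generalize yy k (8 * (b0 + (i : ℤ) / (8 * (P k : ℤ))) + (i : ℤ) / (P k : ℤ) % 8) = A1
      generalize yy k (8 * (b0 + (i : ℤ) / (8 * (P k : ℤ))) + 1) = A2
      generalize yy k (8 * (b0 + (i : ℤ) / (8 * (P k : ℤ))) + 5) = A3
      cases A1 <;> cases A2 <;> cases A3 <;> simp
  choose e he1 he2 using hty
  set ψ : ℕ → ℕ := fun i => 8 * P k * (i / (8 * P k)) + (P k * e i + i % P k) with hψ
  have hdec : ∀ i : ℕ, i = 8 * P k * (i / (8 * P k)) + (P k * ((i / P k) % 8) + i % P k) := by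
    intro i
    have a1 := Nat.div_add_mod i (P k)
    have a2 := Nat.div_add_mod (i / P k) 8
    have a3 : i / P k / 8 = i / (8 * P k) := by rw [Nat.div_div_eq_div_mul, mul_comm]
    rw [a3] at a2
    calc i = P k * (i / P k) + i % P k := a1.symm
      _ = P k * (8 * (i / (8 * P k)) + (i / P k) % 8) + i % P k := by rw [a2]
      _ = _ := by ring
  have hψlt : ∀ i, P k * e i + i % P k < 8 * P k := by
    intro i
    have hm := Nat.mod_lt i hP
    rcases he1 i with h | h <;> rw [h] <;> omega
  have hψdiv : ∀ i, ψ i / (8 * P k) = i / (8 * P k) := by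
    intro i
    rw [hψ]
    dsimp only
    rw [Nat.mul_add_div (by positivity), Nat.div_eq_of_lt (hψlt i), add_zero]
  have hψmod : ∀ i, ψ i % P k = i % P k := by
    intro i
    rw [hψ]
    dsimp only
    rw [show 8 * P k * (i / (8 * P k)) + (P k * e i + i % P k) =
      P k * (8 * (i / (8 * P k)) + e i) + i % P k by ring, Nat.mul_add_mod, Nat.mod_mod]
  have hmap : ∀ i ∈ W1, ψ i ∈ W' := by
    intro i hi
    rw [hW1, mem_filter, hW, mem_filter, mem_range] at hi
    obtain ⟨⟨h1, h2⟩, h3, h4⟩ := hi
    obtain ⟨y1, y2, -⟩ := yy_eight k (b0 + (i / (8 * P k) : ℕ))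
    -- comparison of coordinates
    have cmp : ∀ f : ℕ, yy k (8 * (b0 + (i / (8 * P k) : ℕ)) + ((i / P k) % 8 : ℕ)) =
        yy k (8 * (b0 + (i / (8 * P k) : ℕ)) + f) → ∀ a : ℤ, -(m : ℤ) ≤ a → a ≤ m →
        tx (8 * P k * b0 + i) a =
          tx (8 * P k * (b0 + (i / (8 * P k) : ℕ)) + (P k * f + (i % P k : ℕ))) a := by
      intro f hf a ha1 ha2
      unfold tx
      have e1 : (8 * P k * b0 + i + a : ℤ) = P k * (8 * (b0 + (i / (8 * P k) : ℕ)) +
          ((i / P k) % 8 : ℕ)) + ((i % P k : ℕ) + a) := by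
        have h5 := hdec i
        have h6 : (i : ℤ) = 8 * P k * (i / (8 * P k) : ℕ) +
            (P k * ((i / P k) % 8 : ℕ) + (i % P k : ℕ)) := by exact_mod_cast h5
        linear_combination h6
      have e2 : (8 * P k * (b0 + (i / (8 * P k) : ℕ)) + (P k * f + (i % P k : ℕ)) + a : ℤ) =
          P k * (8 * (b0 + (i / (8 * P k) : ℕ)) + f) + ((i % P k : ℕ) + a) := by ring
      rw [e1, e2]
      apply xx_block k _ _ hf <;> omega
    have c1 := cmp (e i) (he2 i)
    have c2 := cmp (e i + 1) (by
      rw [he2 i]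
      rcases he1 i with h | h <;> rw [h] <;> push_cast
      · exact y1
      · exact y2)
    have E1 : (8 * P k * b0 + (ψ i : ℕ) : ℤ) =
        8 * P k * (b0 + (i / (8 * P k) : ℕ)) + (P k * (e i : ℕ) + (i % P k : ℕ)) := by
      rw [hψ]; push_cast; ring
    have E2 : (8 * P k * b0 + (ψ i : ℕ) + P k : ℤ) =
        8 * P k * (b0 + (i / (8 * P k) : ℕ)) + (P k * (e i + 1 : ℕ) + (i % P k : ℕ)) := by
      rw [hψ]; push_cast; ring
    rw [hW', mem_filter, mem_range]
    refine ⟨?_, ?_, ?_⟩
    · have h5 : i / (8 * P k) < M := by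
        rw [Nat.div_lt_iff_lt_mul (by positivity), mul_comm]
        exact h1
      have h6 := hψlt i
      rw [hψ]
      dsimp only
      have h7 : 8 * P k * (i / (8 * P k) + 1) ≤ 8 * P k * M := Nat.mul_le_mul_left _ h5
      rw [mul_add, mul_one] at h7
      omega
    · rw [E1]
      exact (hC _ _ c1).1 h2
    · rw [E2]
      exact (hC _ _ c2).1 h2
  have h1 : W1.card ≤ 8 * W'.card := by
    have hc := card_le_mul_card_image_of_maps_to (s := W1) (t := W') (f := ψ) hmap 8 (by
      intro t _
      have hs : W1.filter (fun i => ψ i = t) ⊆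
          (range 8).image (fun c => 8 * P k * (t / (8 * P k)) + (P k * c + t % P k)) := by
        intro i hi
        rw [mem_filter] at hi
        rw [mem_image]
        refine ⟨(i / P k) % 8, mem_range.2 (Nat.mod_lt _ (by norm_num)), ?_⟩
        rw [← hi.2, hψdiv, hψmod]
        exact (hdec i).symm
      refine (card_le_card hs).trans (card_image_le.trans ?_)
      rw [card_range])
    exact hc
  omega

open Classical in
/-- windows of arbitrary position -/
theorem window (k m M : ℕ) (h : ℤ) {C : (ℤ → Bool) → Prop} (hC : Loc m C) :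
    ((range (8 * P k * (M + 1))).filter (fun i : ℕ => C (tx (h + i)))).card ≤
      8 * ((range (8 * P k * (M + 1))).filter (fun i : ℕ => C (tx (h + i)) ∧
        C (tx (h + i + P k)))).card + 16 * m * M + 8 * P k := by
  have hP := P_pos k
  have hPz : (0 : ℤ) < 8 * P k := by have : (0 : ℤ) < P k := by exact_mod_cast hP
                                     omega
  obtain ⟨b0, t, hJ, ht⟩ : ∃ (J : ℤ) (t : ℕ), 8 * P k * J = h + t ∧ t < 8 * P k := by
    refine ⟨-((-h) / (8 * P k)), ((-h) % (8 * P k)).toNat, ?_, ?_⟩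
    · rw [Int.toNat_of_nonneg (Int.emod_nonneg _ hPz.ne')]
      have := Int.mul_ediv_add_emod (-h) (8 * P k)
      linear_combination -this
    · have := Int.emod_lt_of_pos (-h) hPz
      have h2 := Int.emod_nonneg (-h) hPz.ne'
      omega
  have hal := aligned k m M b0 hC
  set A := (range (8 * P k * M)).filter (fun i : ℕ => C (tx (8 * P k * b0 + i))) with hA
  set A' := (range (8 * P k * M)).filter (fun i : ℕ => C (tx (8 * P k * b0 + i)) ∧
        C (tx (8 * P k * b0 + i + P k))) with hA'
  have hmul : 8 * P k * (M + 1) = 8 * P k * M + 8 * P k := by ring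
  have k1 : ((range (8 * P k * (M + 1))).filter (fun i : ℕ => C (tx (h + i)))).card ≤
      A.card + 8 * P k := by
    have hs : (range (8 * P k * (M + 1))).filter (fun i : ℕ => C (tx (h + i))) ⊆
        A.image (fun i => i + t) ∪ (range t ∪ Ico (8 * P k * M + t) (8 * P k * (M + 1))) := by
      intro i hi
      rw [mem_filter, mem_range] at hi
      rw [mem_union, mem_union, mem_range, mem_Ico, mem_image]
      by_cases h1 : i < t
      · right; left; exact h1
      by_cases h2 : 8 * P k * M + t ≤ i
      · right; right; exact ⟨h2, hi.1⟩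
      · left
        refine ⟨i - t, ?_, by omega⟩
        rw [hA, mem_filter, mem_range]
        refine ⟨by omega, ?_⟩
        have e : (8 * P k * b0 + ((i - t : ℕ) : ℤ) : ℤ) = h + i := by
          rw [hJ, Nat.cast_sub (by omega)]; ring
        rw [e]
        exact hi.2
    have a1 := card_le_card hs
    have a2 := card_union_le (A.image (fun i => i + t))
      (range t ∪ Ico (8 * P k * M + t) (8 * P k * (M + 1)))
    have a3 := card_union_le (range t) (Ico (8 * P k * M + t) (8 * P k * (M + 1)))
    have a4 : (A.image (fun i => i + t)).card ≤ A.card := card_image_le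
    rw [card_range, Nat.card_Ico] at a3
    omega
  have k2 : A'.card ≤ ((range (8 * P k * (M + 1))).filter (fun i : ℕ => C (tx (h + i)) ∧
        C (tx (h + i + P k)))).card := by
    apply card_le_card_of_injOn (fun i => i + t)
    · intro i hi
      rw [mem_coe, hA', mem_filter, mem_range] at hi
      rw [mem_coe, mem_filter, mem_range]
      have e : h + ((i + t : ℕ) : ℤ) = 8 * P k * b0 + i := by rw [hJ]; push_cast; ring
      refine ⟨by dsimp only; omega, ?_⟩
      rw [e]
      exact hi.2
    · intro a _ b _ hab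
      simpa using hab
  omega

end Pool.Agent.T6.H46.Toe
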