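import Mathlib
import Pool.Agent.T6.H46.Toe.Count
import Pool.Agent.TH525.PF.KBE

/-! # A Toeplitz sequence built from the Thue-Morse word: invariant measures -/

set_option autoImplicit false

open Finset MeasureTheory Filter Topology

namespace Pool.Agent.T6.H46.Toe

/-- the left shift -/
def sh (z : ℤ → Bool) : ℤ → Bool := fun n => z (n + 1)

theorem sh_iter (i : ℕ) (z : ℤ → Bool) (n : ℤ) : sh^[i] z n = z (n + i) := by
  induction i generalizing z n with
  | zero => simp
  | succ i ih =>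
    rw [Function.iterate_succ_apply, ih]
    unfold sh
    congr 1
    push_cast; ring

theorem sh_cont : Continuous sh := by
  unfold sh
  exact continuous_pi fun n => continuous_apply _

/-- the orbit closure of the sequence -/
def XX : Set (ℤ → Bool) := closure (Set.range fun k : ℤ => fun n => xx (n + k))

theorem approx {y : ℤ → Bool} (hy : y ∈ XX) (R : ℕ) :
    ∃ h : ℤ, ∀ a : ℤ, -(R : ℤ) ≤ a → a ≤ R → y a = xx (h + a) := by
  have hopen : IsOpen {z : ℤ → Bool | ∀ a ∈ Set.Icc (-(R : ℤ)) R, z a = y a} := by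
    have : {z : ℤ → Bool | ∀ a ∈ Set.Icc (-(R : ℤ)) R, z a = y a} =
        ⋂ a ∈ Set.Icc (-(R : ℤ)) R, {z : ℤ → Bool | z a = y a} := by
      ext z; simp
    rw [this]
    apply (Set.finite_Icc _ _).isOpen_biInter
    intro a _
    have hc : Continuous (fun z : ℤ → Bool => z a) := continuous_apply a
    exact (isOpen_discrete ({y a} : Set Bool)).preimage hc
  obtain ⟨z, hz, k, rfl⟩ := mem_closure_iff.1 hy _ hopen (fun a _ => rfl)
  refine ⟨k, fun a h1 h2 => ?_⟩
  have := hz a ⟨h1, h2⟩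
  rw [← this, add_comm]

open Classical in
/-- number of visits -/
noncomputable def cnt (L : ℕ) (C : Set (ℤ → Bool)) (z : ℤ → Bool) : ℕ :=
  ((range L).filter (fun i : ℕ => sh^[i] z ∈ C)).card

theorem cnt_eq {L : ℕ} {C : Set (ℤ → Bool)} {z : ℤ → Bool} {p : ℕ → Prop} [DecidablePred p]
    (h : ∀ i < L, (sh^[i] z ∈ C ↔ p i)) : cnt L C z = ((range L).filter p).card := by
  classical
  unfold cnt
  congr 1
  ext i
  rw [mem_filter, mem_filter, mem_range]
  exact and_congr_right fun hi => h i hi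

theorem count_ne {n : ℕ} (hn : 0 < n) : ∃ L : ℕ, 0 < L ∧ ∀ y ∈ XX, L ≤ 32 *
    cnt L {z : ℤ → Bool | z 0 ≠ z n} y := by
  classical
  obtain ⟨L, hL, h⟩ := xx_ne hn
  refine ⟨L, hL, fun y hy => ?_⟩
  obtain ⟨g, hg⟩ := approx hy (L + n)
  rw [cnt_eq (p := fun i : ℕ => xx (g + i) ≠ xx (g + i + n)) ?_]
  · exact h g
  intro i hi
  have e1 := hg i (by push_cast; omega) (by push_cast; omega)
  have e2 := hg (i + n) (by push_cast; omega) (by push_cast; omega)
  rw [Set.mem_ofPred_eq, sh_iter, sh_iter]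
  rw [show (0 : ℤ) + i = i by ring, show (n : ℤ) + i = i + n by ring, e1, e2, ← add_assoc]

theorem count_pr (k m M : ℕ) {C : Set (ℤ → Bool)} (hC : Loc m (fun z => z ∈ C)) {y : ℤ → Bool}
    (hy : y ∈ XX) :
    cnt (8 * P k * (M + 1)) C y ≤
      8 * cnt (8 * P k * (M + 1)) (C ∩ sh^[P k] ⁻¹' C) y + 16 * m * M + 8 * P k := by
  classical
  obtain ⟨g, hg⟩ := approx hy (8 * P k * (M + 1) + P k + m)
  have key := window k m M g hC
  obtain ⟨L, hL⟩ : ∃ L, L = 8 * P k * (M + 1) := ⟨_, rfl⟩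
  rw [← hL] at hg key ⊢
  have e1 : ∀ i < L, (sh^[i] y ∈ C ↔ tx (g + i) ∈ C) := by
    intro i hi
    apply hC
    intro a h1 h2
    rw [sh_iter]
    unfold tx
    rw [hg (a + i) (by push_cast; omega) (by push_cast; omega)]
    congr 1; ring
  have e2 : ∀ i < L, (sh^[i] y ∈ sh^[P k] ⁻¹' C ↔ tx (g + i + P k) ∈ C) := by
    intro i hi
    apply hC
    intro a h1 h2
    rw [sh_iter, sh_iter]
    unfold tx
    rw [hg (a + P k + i) (by push_cast; omega) (by push_cast; omega)]
    congr 1; ring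
  rw [cnt_eq e1, cnt_eq (p := fun i : ℕ => tx (g + i) ∈ C ∧ tx (g + i + P k) ∈ C)
    (fun i hi => by rw [Set.mem_inter_iff, e1 i hi, e2 i hi])]
  exact key

theorem integrate {μ : Measure (ℤ → Bool)} [IsProbabilityMeasure μ] (hμ : MeasurePreserving sh μ μ)
    {C C' : Set (ℤ → Bool)} (hC : MeasurableSet C) (hC' : MeasurableSet C') (L : ℕ) (a B : ℝ)
    (h : ∀ᵐ z ∂μ, a + cnt L C z ≤ B * cnt L C' z) :
    a + L * μ.real C ≤ B * (L * μ.real C') := by
  classical
  have hint : ∀ D : Set (ℤ → Bool), MeasurableSet D →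
      Integrable (fun z => (cnt L D z : ℝ)) μ ∧
      ∫ z, (cnt L D z : ℝ) ∂μ = L * μ.real D := by
    intro D hD
    have e : ∀ z, (cnt L D z : ℝ) =
        ∑ i ∈ range L, (sh^[i] ⁻¹' D).indicator (fun _ => (1 : ℝ)) z := by
      intro z
      unfold cnt
      rw [card_filter]
      push_cast
      refine sum_congr rfl fun i _ => ?_
      rw [Set.indicator_apply]
      rfl
    have hm : ∀ i : ℕ, MeasurableSet (sh^[i] ⁻¹' D) := fun i =>
      (sh_cont.measurable.iterate i) hD
    simp only [e]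
    refine ⟨integrable_finsetSum _ fun i _ => (integrable_const _).indicator (hm i), ?_⟩
    rw [integral_finsetSum _ fun i _ => (integrable_const _).indicator (hm i)]
    have : ∀ i ∈ range L, ∫ z, (sh^[i] ⁻¹' D).indicator (fun _ => (1 : ℝ)) z ∂μ = μ.real D := by
      intro i _
      rw [integral_indicator (hm i), setIntegral_const, smul_eq_mul, mul_one]
      unfold Measure.real
      rw [(hμ.iterate i).measure_preimage hD.nullMeasurableSet]
    rw [sum_congr rfl this, sum_const, card_range, nsmul_eq_mul]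
  obtain ⟨i1, e1⟩ := hint C hC
  obtain ⟨i2, e2⟩ := hint C' hC'
  have := integral_mono_ae ((integrable_const a).add i1) (i2.const_mul B) h
  simp only [Pi.add_apply] at this
  rw [integral_add (integrable_const a) i1, integral_const_mul, e1, e2] at this
  simpa using this

/-- invariant probability measures on the orbit closure -/
structure Inv (μ : Measure (ℤ → Bool)) : Prop where
  prob : IsProbabilityMeasure μ
  pres : MeasurePreserving sh μ μ
  supp : μ XXᶜ = 0

theorem Inv.ae {μ : Measure (ℤ → Bool)} (h : Inv μ) : ∀ᵐ z ∂μ, z ∈ XX := h.supp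

theorem measurable_ne (n : ℤ) : MeasurableSet {z : ℤ → Bool | z 0 ≠ z n} :=
  (measurableSet_eq_fun (measurable_pi_apply 0) (measurable_pi_apply n)).compl

theorem ne_meas {μ : Measure (ℤ → Bool)} (h : Inv μ) {n : ℕ} (hn : 0 < n) :
    (1 : ℝ) / 32 ≤ μ.real {z : ℤ → Bool | z 0 ≠ z n} := by
  have := h.prob
  obtain ⟨L, hL, hc⟩ := count_ne hn
  have key := integrate h.pres MeasurableSet.empty (measurable_ne n) L L 32 (by
    filter_upwards [h.ae] with z hz
    have := hc z hz
    have h0 : cnt L ∅ z = 0 := by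
      rw [cnt_eq (p := fun _ => False) (fun _ _ => Iff.rfl)]
      simp
    rw [h0, Nat.cast_zero, add_zero]
    exact_mod_cast this)
  have hL' : (0 : ℝ) < L := by exact_mod_cast hL
  simp only [measureReal_empty, mul_zero, add_zero] at key
  rw [div_le_iff₀ (by norm_num)]
  by_contra hcon
  push Not at hcon
  nlinarith

theorem loc_open {m : ℕ} {C : Set (ℤ → Bool)} (hC : Loc m (fun z => z ∈ C)) : IsOpen C := by
  rw [isOpen_iff_forall_mem_open]
  intro y hy
  refine ⟨{z : ℤ → Bool | ∀ a ∈ Set.Icc (-(m : ℤ)) m, z a = y a}, ?_, ?_, fun a _ => rfl⟩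
  · intro z hz
    exact (hC z y fun a h1 h2 => hz a ⟨h1, h2⟩).2 hy
  · have : {z : ℤ → Bool | ∀ a ∈ Set.Icc (-(m : ℤ)) m, z a = y a} =
        ⋂ a ∈ Set.Icc (-(m : ℤ)) m, {z : ℤ → Bool | z a = y a} := by
      ext z; simp
    rw [this]
    apply (Set.finite_Icc _ _).isOpen_biInter
    intro a _
    have hc : Continuous (fun z : ℤ → Bool => z a) := continuous_apply a
    exact (isOpen_discrete ({y a} : Set Bool)).preimage hc

theorem pr_meas {μ : Measure (ℤ → Bool)} (h : Inv μ) (k m : ℕ) {C : Set (ℤ → Bool)}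
    (hC : Loc m (fun z => z ∈ C)) :
    μ.real C ≤ 8 * μ.real (C ∩ sh^[P k] ⁻¹' C) + 2 * m / P k := by
  classical
  have := h.prob
  have hCm : MeasurableSet C := (loc_open hC).measurableSet
  have hCm' : MeasurableSet (C ∩ sh^[P k] ⁻¹' C) :=
    hCm.inter ((sh_cont.measurable.iterate _) hCm)
  have hP : (0 : ℝ) < P k := by exact_mod_cast P_pos k
  have key : ∀ M : ℕ, μ.real C ≤ 8 * μ.real (C ∩ sh^[P k] ⁻¹' C) + 2 * m / P k +
      1 / ((M : ℝ) + 1) := by
    intro M
    have hi := integrate h.pres hCm hCm' (8 * P k * (M + 1)) (-(16 * m * M + 8 * P k)) 8 (by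
      filter_upwards [h.ae] with z hz
      have := count_pr k m M hC hz
      have h2 : (cnt (8 * P k * (M + 1)) C z : ℝ) ≤
        8 * cnt (8 * P k * (M + 1)) (C ∩ sh^[P k] ⁻¹' C) z + 16 * m * M + 8 * P k := by
        exact_mod_cast this
      linarith)
    push_cast at hi
    have hM : (0 : ℝ) < (M : ℝ) + 1 := by positivity
    have hm : (0 : ℝ) ≤ m := by positivity
    have hM0 : (0 : ℝ) ≤ M := by positivity
    have e1 : (8 * (P k : ℝ) * (M + 1)) * (2 * m / P k) = 16 * m * (M + 1) := by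
      field_simp; ring
    have e2 : (8 * (P k : ℝ) * (M + 1)) * (1 / ((M : ℝ) + 1)) = 8 * P k := by
      field_simp
    have hpos : 0 < 8 * (P k : ℝ) * (M + 1) := by positivity
    have : (8 * (P k : ℝ) * (M + 1)) * μ.real C ≤ (8 * (P k : ℝ) * (M + 1)) *
        (8 * μ.real (C ∩ sh^[P k] ⁻¹' C) + 2 * m / P k + 1 / ((M : ℝ) + 1)) := by
      have e3 : ∀ u v w : ℝ, (8 * (P k : ℝ) * (M + 1)) * (8 * u + v + w) =
          8 * (8 * P k * (M + 1) * u) + (8 * P k * (M + 1)) * v + (8 * P k * (M + 1)) * w := by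
        intro u v w; ring
      rw [e3, e1, e2]
      nlinarith
    exact le_of_mul_le_mul_left this hpos
  have hlim : Tendsto (fun M : ℕ => 8 * μ.real (C ∩ sh^[P k] ⁻¹' C) + 2 * m / P k +
      1 / ((M : ℝ) + 1)) atTop (𝓝 (8 * μ.real (C ∩ sh^[P k] ⁻¹' C) + 2 * m / P k + 0)) :=
    tendsto_const_nhds.add tendsto_one_div_add_atTop_nhds_zero_nat
  rw [add_zero] at hlim
  exact ge_of_tendsto' hlim key

/-- the algebra of sets depending on finitely many coordinates -/
def AA : Set (Set (ℤ → Bool)) := {C | ∃ m, Loc m (fun z => z ∈ C)}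

theorem AA_alg : IsSetAlgebra AA where
  empty_mem := ⟨0, fun z z' _ => Iff.rfl⟩
  compl_mem := by
    rintro s ⟨m, hm⟩
    exact ⟨m, fun z z' h => not_congr (hm z z' h)⟩
  union_mem := by
    rintro s t ⟨m, hm⟩ ⟨l, hl⟩
    refine ⟨max m l, fun z z' h => or_congr (hm z z' fun a h1 h2 => h a ?_ ?_)
      (hl z z' fun a h1 h2 => h a ?_ ?_)⟩ <;> push_cast <;> omega

theorem AA_gen : (MeasurableSpace.pi : MeasurableSpace (ℤ → Bool)) =
    MeasurableSpace.generateFrom AA := by
  apply le_antisymm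
  · unfold MeasurableSpace.pi
    rw [iSup_le_iff]
    intro i
    rintro s ⟨t, -, rfl⟩
    apply MeasurableSpace.measurableSet_generateFrom
    refine ⟨i.natAbs, fun z z' h => ?_⟩
    change z i ∈ t ↔ z' i ∈ t
    rw [h i (by omega) (by omega)]
  · apply MeasurableSpace.generateFrom_le
    rintro s ⟨m, hm⟩
    exact (loc_open hm).measurableSet

theorem partial_rigid {μ : Measure (ℤ → Bool)} (h : Inv μ) {B : Set (ℤ → Bool)}
    (hB : MeasurableSet B) {ε : ℝ} (hε : 0 < ε) :
    ∀ᶠ k in atTop, μ.real B ≤ 8 * μ.real (B ∩ sh^[P k] ⁻¹' B) + ε := by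
  have := h.prob
  have hd := Measure.MeasureDense.of_generateFrom_isSetAlgebra_finite (μ := μ) AA_alg AA_gen
  obtain ⟨C, ⟨m, hC⟩, hBC⟩ := hd.approx B hB (measure_ne_top _ _) (ε / 32) (by positivity)
  have hCm : MeasurableSet C := (loc_open hC).measurableSet
  have hBC' : μ.real (symmDiff B C) ≤ ε / 32 := by
    unfold Measure.real
    exact ENNReal.toReal_le_of_le_ofReal (by positivity) hBC.le
  have hlim : ∀ᶠ k in atTop, 2 * (m : ℝ) / P k ≤ ε / 4 := by
    have h1 : Tendsto (fun k : ℕ => (2 * (m : ℝ)) / (k : ℝ)) atTop (𝓝 0) :=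
      tendsto_const_div_atTop_nhds_zero_nat _
    filter_upwards [h1.eventually (ge_mem_nhds (show (0 : ℝ) < ε / 4 by positivity)),
      eventually_gt_atTop 0] with k hk hk0
    refine le_trans ?_ hk
    apply div_le_div_of_nonneg_left (by positivity) (by exact_mod_cast hk0)
    obtain ⟨N, hN, hkN⟩ := P_two_pow k
    have : k ≤ P k := by
      rw [hN]
      exact hkN.trans Nat.lt_two_pow_self.le
    exact_mod_cast this
  filter_upwards [hlim] with k hk
  have hpr := pr_meas h k m hC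
  have hit := h.pres.iterate (P k)
  -- compare `B` and `C`
  have s1 : B ⊆ C ∪ symmDiff B C := by
    intro z hz
    by_cases hc : z ∈ C
    · exact Or.inl hc
    · exact Or.inr (Or.inl ⟨hz, hc⟩)
  have s2 : C ∩ sh^[P k] ⁻¹' C ⊆ (B ∩ sh^[P k] ⁻¹' B) ∪
      (symmDiff B C ∪ sh^[P k] ⁻¹' (symmDiff B C)) := by
    rintro z ⟨hz1, hz2⟩
    by_cases hb1 : z ∈ B
    · by_cases hb2 : sh^[P k] z ∈ B
      · exact Or.inl ⟨hb1, hb2⟩
      · exact Or.inr (Or.inr (Or.inr ⟨hz2, hb2⟩))
    · exact Or.inr (Or.inl (Or.inr ⟨hz1, hb1⟩))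
  have m1 : μ.real B ≤ μ.real C + μ.real (symmDiff B C) :=
    (measureReal_mono s1).trans (measureReal_union_le _ _)
  have m2 : μ.real (C ∩ sh^[P k] ⁻¹' C) ≤ μ.real (B ∩ sh^[P k] ⁻¹' B) +
      (μ.real (symmDiff B C) + μ.real (sh^[P k] ⁻¹' (symmDiff B C))) :=
    (measureReal_mono s2).trans ((measureReal_union_le _ _).trans
      (by gcongr; exact measureReal_union_le _ _))
  have m3 : μ.real (sh^[P k] ⁻¹' (symmDiff B C)) = μ.real (symmDiff B C) := by
    unfold Measure.real
    rw [hit.measure_preimage (hB.symmDiff hCm).nullMeasurableSet]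
  rw [m3] at m2
  linarith

/-- non-rigidity, quantitative form -/
theorem not_rigid {μ : Measure (ℤ → Bool)} (h : Inv μ) {n : ℕ} (hn : 0 < n) :
    μ.real ({z : ℤ → Bool | z 0 = true} ∩ sh^[n] ⁻¹' {z : ℤ → Bool | z 0 = true}) + 1 / 64 ≤
      μ.real {z : ℤ → Bool | z 0 = true} := by
  have := h.prob
  set B : Set (ℤ → Bool) := {z : ℤ → Bool | z 0 = true} with hB
  have hev : Measurable (fun z : ℤ → Bool => z 0) := measurable_pi_apply 0
  have hBm : MeasurableSet B := hev (measurableSet_singleton true)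
  have hit := h.pres.iterate n
  have hne := ne_meas h hn
  have e0 : {z : ℤ → Bool | z 0 ≠ z n} = (B \ sh^[n] ⁻¹' B) ∪ (sh^[n] ⁻¹' B \ B) := by
    ext z
    have h1 : z ∈ sh^[n] ⁻¹' B ↔ z n = true := by
      rw [Set.mem_preimage, hB, Set.mem_ofPred_eq, sh_iter, zero_add]
    rw [Set.mem_union, Set.mem_sdiff, Set.mem_sdiff, h1, hB, Set.mem_ofPred_eq, Set.mem_ofPred_eq]
    cases z 0 <;> cases z n <;> simp
  rw [e0] at hne
  have h1 := measureReal_union_le (μ := μ) (B \ sh^[n] ⁻¹' B) (sh^[n] ⁻¹' B \ B)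
  have hpm : MeasurableSet (sh^[n] ⁻¹' B) := hit.measurable hBm
  have h2 := measureReal_inter_add_sdiff (μ := μ) (s := B) hpm
  have h3 := measureReal_inter_add_sdiff (μ := μ) (s := sh^[n] ⁻¹' B) hBm
  have h4 : μ.real (sh^[n] ⁻¹' B) = μ.real B := by
    unfold Measure.real
    rw [hit.measure_preimage hBm.nullMeasurableSet]
  rw [Set.inter_comm] at h3
  linarith

end Pool.Agent.T6.H46.Toe
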